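import Pool.Agent.SMP.Shr
import Pool.Agent.SMP.Cyc
import Pool.Agent.SMP.Blk

set_option autoImplicit false

open Finset

namespace Pool.Agent.Results.MP_bed899_co.ProductBound

/-- The stable matchings of the instance in which `mp m w` is the rank of the woman `w` for the man
`m` and `wp w m` the rank of `m` for `w`. -/
def Stab {n : ℕ} (mp wp : Fin n → Equiv.Perm (Fin n)) : Finset (Equiv.Perm (Fin n)) :=
  Finset.univ.filter (fun σ : Equiv.Perm (Fin n) =>
    ∀ m w : Fin n, ¬ (mp m w < mp m (σ m) ∧ wp w m < wp w (σ.symm w)))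

/-- The stable partners of the man `m`. -/
def partners {n : ℕ} (mp wp : Fin n → Equiv.Perm (Fin n)) (m : Fin n) : Finset (Fin n) :=
  (Stab mp wp).image (fun σ => σ m)

/-- The stable partners of the woman `w`. -/
def wpartners {n : ℕ} (mp wp : Fin n → Equiv.Perm (Fin n)) (w : Fin n) : Finset (Fin n) :=
  (Stab mp wp).image (fun σ => σ.symm w)

/-- If (with weights `u` of the men and `v` of the women) the persons whose partners in two
different stable matchings differ always have total weight at least `t > 0`, then the `t`-th power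
of the number of stable matchings is at most the product of the numbers of stable partners, each
with its weight as exponent. With weight one for the men and zero for the women this is attained:
for all `1 ≤ k ≤ d` there are instances with `q * d` men in which two different stable matchings
differ in at least `d` men, every man has exactly `k` stable partners and there are `k ^ q` stable
matchings. -/
theorem result :
    (∀ (n : ℕ) (mp wp : Fin n → Equiv.Perm (Fin n)) (u v : Fin n → ℕ) (t : ℕ), 0 < t →
      (∀ σ ∈ Stab mp wp, ∀ τ ∈ Stab mp wp, σ ≠ τ →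
        t ≤ ∑ m ∈ univ.filter (fun m => σ m ≠ τ m), u m +
          ∑ w ∈ univ.filter (fun w => σ.symm w ≠ τ.symm w), v w) →
      (Stab mp wp).card ^ t ≤ (∏ m, (partners mp wp m).card ^ u m) *
        ∏ w, (wpartners mp wp w).card ^ v w) ∧
    ∀ k d q : ℕ, 1 ≤ k → k ≤ d → ∃ mp wp : Fin (q * d) → Equiv.Perm (Fin (q * d)),
      (∀ σ ∈ Stab mp wp, ∀ τ ∈ Stab mp wp, σ ≠ τ →
        d ≤ (univ.filter (fun m => σ m ≠ τ m)).card) ∧
      (∀ m, (partners mp wp m).card = k) ∧ (Stab mp wp).card = k ^ q := by
  have key : ∀ (n : ℕ) (mp wp : Fin n → Equiv.Perm (Fin n)),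
      Stab mp wp = Pool.Agent.StabM.stabS mp wp := by
    intro n mp wp
    ext σ
    simp only [Stab, Pool.Agent.StabM.stabS, Pool.Agent.StabM.Stable, Finset.mem_filter]
  have main : ∀ (n : ℕ) (mp wp : Fin n → Equiv.Perm (Fin n)) (u v : Fin n → ℕ) (t : ℕ), 0 < t →
      (∀ σ ∈ Stab mp wp, ∀ τ ∈ Stab mp wp, σ ≠ τ →
        t ≤ ∑ m ∈ univ.filter (fun m => σ m ≠ τ m), u m +
          ∑ w ∈ univ.filter (fun w => σ.symm w ≠ τ.symm w), v w) →
      (Stab mp wp).card ^ t ≤ (∏ m, (partners mp wp m).card ^ u m) *
        ∏ w, (wpartners mp wp w).card ^ v w := by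
    intro n mp wp u v t ht h
    simp only [partners, wpartners, key] at h ⊢
    exact Pool.Agent.SMP.good_weights (Pool.Agent.StabM.good_stab mp wp) u v t ht h
  -- weight one for the men, zero for the women
  have men : ∀ (n : ℕ) (mp wp : Fin n → Equiv.Perm (Fin n)) (t : ℕ), 0 < t →
      (∀ σ ∈ Stab mp wp, ∀ τ ∈ Stab mp wp, σ ≠ τ →
        t ≤ (univ.filter (fun m => σ m ≠ τ m)).card) →
      (Stab mp wp).card ^ t ≤ ∏ m, (partners mp wp m).card := by
    intro n mp wp t ht h
    have h1 := main n mp wp (fun _ => 1) (fun _ => 0) t ht (by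
      intro σ hσ τ hτ hne
      have h2 := h σ hσ τ hτ hne
      simp only [Finset.sum_const, smul_eq_mul, mul_one, mul_zero, add_zero]
      exact h2)
    simpa using h1
  refine ⟨main, ?_⟩
  · intro k d q hk hkd
    obtain ⟨mp0, wp0, h1, h2⟩ := Pool.Agent.SMP.cyclic_instance k d hk hkd
    obtain ⟨mp, wp, h3, h4, h5⟩ := Pool.Agent.SMP.blocks_dist mp0 wp0 q
    have hd : ∀ σ ∈ Stab mp wp, ∀ τ ∈ Stab mp wp, σ ≠ τ →
        d ≤ (univ.filter (fun m => σ m ≠ τ m)).card := by
      rw [key]
      refine h5 d ?_
      intro σ hσ τ hτ hne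
      rw [Finset.filter_true_of_mem (fun m _ => h2 σ hσ τ hτ hne m)]
      simp
    have hle : ∀ m, (partners mp wp m).card ≤ k := by
      intro m
      simp only [partners, key]
      refine h4 k (fun m' => ?_) m
      rw [← h1]
      exact Finset.card_image_le
    have hN : (Stab mp wp).card = k ^ q := by
      rw [key, h3, h1]
    have hpos : ∀ m, 0 < (partners mp wp m).card := by
      intro m
      rw [Finset.card_pos, partners, Finset.image_nonempty, ← Finset.card_pos, hN]
      positivity
    refine ⟨mp, wp, hd, ?_, hN⟩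
    intro m
    by_contra hne
    have h6 := men _ mp wp d (by omega) hd
    have h7 : ∏ m, (partners mp wp m).card < ∏ _m : Fin (q * d), k :=
      Finset.prod_lt_prod (fun i _ => hpos i) (fun i _ => hle i)
        ⟨m, Finset.mem_univ m, lt_of_le_of_ne (hle m) hne⟩
    rw [Finset.prod_const, Finset.card_univ, Fintype.card_fin, pow_mul] at h7
    rw [hN] at h6
    omega

end Pool.Agent.Results.MP_bed899_co.ProductBound
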