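import Pool.Agent.SMP.Fin

set_option autoImplicit false

open Finset

namespace Pool.Agent.Results.MP_bed899_co.ThreePartners

/-- The stable matchings of the instance in which `mp m w` is the rank of the woman `w` for the man
`m` and `wp w m` the rank of `m` for `w`. -/
def Stab {n : ℕ} (mp wp : Fin n → Equiv.Perm (Fin n)) : Finset (Equiv.Perm (Fin n)) :=
  Finset.univ.filter (fun σ : Equiv.Perm (Fin n) =>
    ∀ m w : Fin n, ¬ (mp m w < mp m (σ m) ∧ wp w m < wp w (σ.symm w)))

/-- The stable partners of the man `m`. -/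
def partners {n : ℕ} (mp wp : Fin n → Equiv.Perm (Fin n)) (m : Fin n) : Finset (Fin n) :=
  (Stab mp wp).image (fun σ => σ m)

/-- If every man has at most three stable partners then there are at most `7 ^ (n / 4)` stable
matchings, and this is attained for every `n` divisible by four. -/
theorem result :
    (∀ (n : ℕ) (mp wp : Fin n → Equiv.Perm (Fin n)),
      (∀ m, (partners mp wp m).card ≤ 3) → (Stab mp wp).card ^ 4 ≤ 7 ^ n) ∧
    ∀ q : ℕ, ∃ mp wp : Fin (q * 4) → Equiv.Perm (Fin (q * 4)),
      (∀ m, (partners mp wp m).card ≤ 3) ∧ (Stab mp wp).card = 7 ^ q := by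
  have key : ∀ (n : ℕ) (mp wp : Fin n → Equiv.Perm (Fin n)),
      Stab mp wp = Pool.Agent.StabM.stabS mp wp := by
    intro n mp wp
    ext σ
    simp only [Stab, Pool.Agent.StabM.stabS, Pool.Agent.StabM.Stable, Finset.mem_filter]
  refine ⟨?_, ?_⟩
  · intro n mp wp h
    simp only [partners, key] at h
    rw [key]
    exact Pool.Agent.SMP.good_three (Pool.Agent.StabM.good_stab mp wp) h
  · intro q
    obtain ⟨mp0, wp0, h0, h3⟩ := Pool.Agent.SMP.base7
    obtain ⟨mp, wp, h1, h2⟩ := Pool.Agent.SMP.blocks mp0 wp0 q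
    refine ⟨mp, wp, ?_, ?_⟩
    · intro m
      simp only [partners, key]
      exact h2 3 h3 m
    · rw [key, h1, h0]

end Pool.Agent.Results.MP_bed899_co.ThreePartners
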