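import Pool.Agent.StabM.Sharp

set_option autoImplicit false

open Finset

namespace Pool.Agent.Results.MP_bed899_co.UpperBound

/-- The largest number of stable matchings of an instance with `n` men and `n` women is at most
`3.06 ^ n`. -/
theorem result :
    ∀ M : ℕ → ℕ,
      (∀ n : ℕ, M n = sSup {c : ℕ | ∃ (mp wp : Fin n → Equiv.Perm (Fin n)),
          c = (Finset.univ.filter (fun σ : Equiv.Perm (Fin n) =>
                ∀ m w : Fin n, ¬ (mp m w < mp m (σ m) ∧ wp w m < wp w (σ.symm w)))).card}) →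
      ∀ n : ℕ, (M n : ℝ) ≤ (306 / 100 : ℝ) ^ n := by
  intro M hM n
  have h1 : M n ≤ ⌊(306 / 100 : ℝ) ^ n⌋₊ := by
    rw [hM n]
    apply csSup_le
    · exact ⟨_, fun _ => Equiv.refl _, fun _ => Equiv.refl _, rfl⟩
    · rintro c ⟨mp, wp, rfl⟩
      apply Nat.le_floor
      have h := Pool.Agent.StabM.sharp_bound mp wp
      refine le_trans (le_of_eq ?_) h
      congr 1
  calc (M n : ℝ) ≤ (⌊(306 / 100 : ℝ) ^ n⌋₊ : ℝ) := by exact_mod_cast h1
    _ ≤ (306 / 100 : ℝ) ^ n := Nat.floor_le (by positivity)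

end Pool.Agent.Results.MP_bed899_co.UpperBound
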